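import Mathlib
import Pool.Agent.H14.Gt1

namespace Pool.Agent.Results.MP_10c741_co.Eleven

open Pool.Agent.H14.Gt1

/-- A geometric drawing: distinct points, and no edge segment passes through another vertex. -/
def IsDrawing {V : Type} (G : SimpleGraph V) (p : V → ℝ × ℝ) : Prop :=
  Function.Injective p ∧
    ∀ a b c, G.Adj a b → p c ∈ segment ℝ (p a) (p b) → c = a ∨ c = b

/-- Some geometric drawing has its edges split into t classes, two different edges of one class
meeting only at a shared endpoint. -/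
def Splits {V : Type} (G : SimpleGraph V) (t : ℕ) : Prop :=
  ∃ p : V → ℝ × ℝ, IsDrawing G p ∧ ∃ col : G.edgeSet → Fin t,
    ∀ a b c d (hab : G.Adj a b) (hcd : G.Adj c d), s(a, b) ≠ s(c, d) →
      col ⟨s(a, b), hab⟩ = col ⟨s(c, d), hcd⟩ →
      ∀ x ∈ segment ℝ (p a) (p b), x ∈ segment ℝ (p c) (p d) →
        ∃ v, (v = a ∨ v = b) ∧ (v = c ∨ v = d) ∧ x = p v

/-- Geometric thickness. -/
noncomputable def geomThickness {V : Type} (G : SimpleGraph V) : ℕ := sInf {t | Splits G t}

/-- The degrees k of k-regular finite graphs of geometric thickness exactly t. -/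
def Degs (t : ℕ) : Set ℕ :=
  {k | ∃ (n : ℕ) (G : SimpleGraph (Fin n)), (∀ v, (G.neighborSet v).ncard = k) ∧
    geomThickness G = t}

def O (P Q X : ℝ × ℝ) : ℝ := (Q.1 - P.1) * (X.2 - P.2) - (Q.2 - P.2) * (X.1 - P.1)

lemma O_seg {P Q X : ℝ × ℝ} (h : X ∈ segment ℝ P Q) : O P Q X = 0 := by
  obtain ⟨u, v, -, -, huv, rfl⟩ := h
  have : u = 1 - v := by linarith
  subst this
  simp only [O, Prod.fst_add, Prod.snd_add, Prod.smul_fst, Prod.smul_snd, smul_eq_mul]
  ring

lemma O_sep {P Q R S X : ℝ × ℝ} (h : 0 < O P Q R * O P Q S) (h1 : X ∈ segment ℝ P Q)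
    (h2 : X ∈ segment ℝ R S) : False := by
  have h0 := O_seg h1
  obtain ⟨u, v, hu, hv, huv, rfl⟩ := h2
  have e : O P Q (u • R + v • S) = u * O P Q R + v * O P Q S := by
    have : u = 1 - v := by linarith
    subst this
    simp only [O, Prod.fst_add, Prod.snd_add, Prod.smul_fst, Prod.smul_snd, smul_eq_mul]
    ring
  rw [e] at h0
  have h3 : O P Q R ≠ 0 := by
    intro hz
    rw [hz] at h
    simp at h
  have h4 : O P Q S ≠ 0 := by
    intro hz
    rw [hz] at h
    simp at h
  have h5 : u * (O P Q R * O P Q R) + v * (O P Q R * O P Q S) = 0 := by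
    linear_combination (O P Q R) * h0
  have h6 : 0 < O P Q R * O P Q R := mul_self_pos.mpr h3
  rcases eq_or_lt_of_le hu with hu0 | hu0
  · have hv1 : v = 1 := by linarith
    rw [← hu0, hv1] at h5
    linarith
  · nlinarith [mul_pos hu0 h6, mul_nonneg hv h.le]

lemma O_share {P Q S X : ℝ × ℝ} (h : O P Q S ≠ 0) (h1 : X ∈ segment ℝ P Q)
    (h2 : X ∈ segment ℝ P S) : X = P := by
  have h0 := O_seg h1
  obtain ⟨u, v, hu, hv, huv, rfl⟩ := h2
  have e : O P Q (u • P + v • S) = v * O P Q S := by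
    have : u = 1 - v := by linarith
    subst this
    simp only [O, Prod.fst_add, Prod.snd_add, Prod.smul_fst, Prod.smul_snd, smul_eq_mul]
    ring
  rw [e] at h0
  have hv0 : v = 0 := by
    rcases mul_eq_zero.mp h0 with h' | h'
    · exact h'
    · exact absurd h' h
  have hu1 : u = 1 := by linarith
  simp [hv0, hu1]

lemma O_swap (P Q X : ℝ × ℝ) : O Q P X = - O P Q X := by
  simp only [O]; ring

def pt (a : Fin 44) : ℝ × ℝ := ((px a : ℝ), (py a : ℝ))

lemma O_pt (a b c : Fin 44) : O (pt a) (pt b) (pt c) = ((ori a b c : ℤ) : ℝ) := by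
  simp only [O, pt, ori]
  push_cast
  ring

def G : SimpleGraph (Fin 44) where
  Adj a b := lab a b ≠ 0
  symm := ⟨fun a b h => by rw [c2a b a]; exact h⟩
  loopless := ⟨fun a h => h (c2b a)⟩

lemma off {k : ℕ} (hk : k ∈ [1, 2]) {a b : Fin 44} (h : (a.1, b.1) ∈ EL k) (c : Fin 44)
    (h1 : c ≠ a) (h2 : c ≠ b) : O (pt a) (pt b) (pt c) ≠ 0 := by
  rw [O_pt]
  rcases c3 k hk _ h c c.2 with h' | h' | h'
  · exact absurd (Fin.ext h') h1
  · exact absurd (Fin.ext h') h2
  · exact_mod_cast h'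

lemma off' {a b : Fin 44} (h : G.Adj a b) (c : Fin 44)
    (h1 : c ≠ a) (h2 : c ≠ b) : O (pt a) (pt b) (pt c) ≠ 0 := by
  rcases c2c a b with h0 | ⟨hk, h' | h'⟩
  · exact absurd h0 h
  · exact off hk h' c h1 h2
  · rw [O_swap]
    exact neg_ne_zero.mpr (off hk h' c h2 h1)

lemma disj {k : ℕ} (hk : k ∈ [1, 2]) {a b c d : Fin 44} (h1 : (a.1, b.1) ∈ EL k)
    (h2 : (c.1, d.1) ∈ EL k) (n1 : a ≠ c) (n2 : a ≠ d) (n3 : b ≠ c) (n4 : b ≠ d) {x : ℝ × ℝ}
    (x1 : x ∈ segment ℝ (pt a) (pt b)) (x2 : x ∈ segment ℝ (pt c) (pt d)) : False := by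
  have h := c1 k hk _ h1 _ h2
  simp only [sep, Bool.or_eq_true, beq_iff_eq, decide_eq_true_eq] at h
  rcases h with ((((h | h) | h) | h) | h) | h
  · exact n1 (Fin.ext h)
  · exact n2 (Fin.ext h)
  · exact n3 (Fin.ext h)
  · exact n4 (Fin.ext h)
  · refine O_sep ?_ x1 x2
    rw [O_pt, O_pt]
    exact_mod_cast h
  · refine O_sep ?_ x2 x1
    rw [O_pt, O_pt]
    exact_mod_cast h

lemma splits : Splits G 2 := by
  refine ⟨pt, ⟨?_, ?_⟩, fun e => Sym2.lift ⟨fun a b : Fin 44 => if lab a b = 1 then (0 : Fin 2) else 1,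
    fun a b => by simp only [c2a a b]⟩ e.1, ?_⟩
  · intro a b h
    simp only [pt, Prod.mk.injEq, Int.cast_inj] at h
    rcases c2d a b with h' | h' | h'
    · exact h'
    · exact absurd h.1 h'
    · exact absurd h.2 h'
  · intro a b c hab hc
    by_contra hn
    push Not at hn
    exact off' hab c hn.1 hn.2 (O_seg hc)
  · intro a b c d hab hcd hne hcol x x1 x2
    simp only [Sym2.lift_mk] at hcol
    have hab' := hab.ne
    have hcd' := hcd.ne
    by_cases n1 : a = c
    · subst n1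
      have : d ≠ b := by
        rintro rfl
        exact hne rfl
      exact ⟨a, Or.inl rfl, Or.inl rfl, O_share (off' hab d hcd'.symm this) x1 x2⟩
    by_cases n2 : a = d
    · subst n2
      have : c ≠ b := by
        rintro rfl
        exact hne (Sym2.eq_swap)
      rw [segment_symm] at x2
      exact ⟨a, Or.inl rfl, Or.inr rfl, O_share (off' hab c hcd' this) x1 x2⟩
    by_cases n3 : b = c
    · subst n3
      rw [segment_symm] at x1
      exact ⟨b, Or.inr rfl, Or.inl rfl,
        O_share (off' hab.symm d hcd'.symm (Ne.symm n2)) x1 x2⟩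
    by_cases n4 : b = d
    · subst n4
      rw [segment_symm] at x1 x2
      exact ⟨b, Or.inr rfl, Or.inr rfl,
        O_share (off' hab.symm c hcd' (Ne.symm n1)) x1 x2⟩
    exfalso
    rcases c2c a b with h0 | ⟨hk, h1⟩
    · exact hab h0
    rcases c2c c d with h0 | ⟨hk', h2⟩
    · exact hcd h0
    have hl : lab c d = lab a b := by
      simp only [List.mem_cons, List.not_mem_nil, or_false] at hk hk'
      rcases hk with hk | hk <;> rcases hk' with hk' | hk' <;> simp_all
    rw [hl] at h2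
    have x1' := x1
    have x2' := x2
    rw [segment_symm] at x1' x2'
    rcases h1 with h1 | h1 <;> rcases h2 with h2 | h2
    · exact disj hk h1 h2 n1 n2 n3 n4 x1 x2
    · exact disj hk h1 h2 n2 n1 n4 n3 x1 x2'
    · exact disj hk h1 h2 n3 n4 n1 n2 x1' x2
    · exact disj hk h1 h2 n4 n3 n2 n1 x1' x2'

lemma reg (v : Fin 44) : (G.neighborSet v).ncard = 11 := by
  rw [← c4 v, ← Set.ncard_coe_finset]
  congr 1
  ext b
  simp [G]

theorem result :
    (∃ G : SimpleGraph (Fin 44), (∀ v, (G.neighborSet v).ncard = 11) ∧ Splits G 2) ∧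
    ¬ ∀ t : ℕ, 1 ≤ t → IsGreatest (Degs t) (5 * t) := by
  refine ⟨⟨G, reg, splits⟩, fun h => ?_⟩
  have h2 : geomThickness G ≤ 2 := Nat.sInf_le splits
  have hm : Splits G (geomThickness G) := Nat.sInf_mem (s := {t | Splits G t}) ⟨2, splits⟩
  have h0 : 1 ≤ geomThickness G := by
    by_contra hc
    have hz : geomThickness G = 0 := by omega
    rw [hz] at hm
    obtain ⟨p, -, col, -⟩ := hm
    have hne : (G.neighborSet 0).Nonempty := by
      apply Set.nonempty_of_ncard_ne_zero
      rw [reg]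
      omega
    obtain ⟨b, hb⟩ := hne
    exact (col ⟨s(0, b), hb⟩).elim0
  have := (h _ h0).2 ⟨44, G, reg, rfl⟩
  omega

end Pool.Agent.Results.MP_10c741_co.Eleven
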